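import Pool.Agent.helper53.DC.SpecI

set_option autoImplicit false

namespace Pool.Agent.helper53.DC

open scoped Classical in
/-- combinatorial core of the chain lemma -/
theorem D2_core (g0 D n : ℕ) (X : ℕ → ℕ → Prop) (symm : ∀ i j, X i j → X j i)
    (H1 : ∀ i j l, i < j → j < l → l < n → ¬ X i j → X l i → X l j)
    (H2 : ∀ i j, i < n → j < n → i ≠ j → ¬ X i j → ∀ F : Finset ℕ, (∀ l ∈ F, l < n ∧ X l i ∧ X l j) → F.card ≤ g0)
    (H3 : ∀ F : Finset ℕ, (∀ i ∈ F, i < n) → (∀ i ∈ F, ∀ j ∈ F, i ≠ j → X i j) → F.card ≤ D)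
    (G1 G G2 : ℕ) (hG1 : G1 = 2 * g0 + 1) (hG : G = G1 + D + 1) (hG2 : G2 = 2 * G + G1 + 1) (hn : 0 < n) :
    ∃ (T : ℕ) (u : ℕ → ℕ), u 0 ≤ G2 ∧ (∀ s < T, u s < u (s + 1) ∧ u (s + 1) ≤ u s + G2) ∧ u T < n ∧ n ≤ u T + G2 ∧
      ∀ s s', s < s' → s' ≤ T → u s < u s' ∧ u s' < n ∧ ¬ X (u s) (u s') := by
  let good : ℕ → Prop := fun i => ∃ j, i < j ∧ j ≤ i + G ∧ j < n ∧ ¬ X i j
  have bad : ∀ p, p + G < n → ∀ F : Finset ℕ, (∀ i ∈ F, p ≤ i ∧ i < p + G1 ∧ ¬ good i) → F.card ≤ g0 := by
    intro p hp F hF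
    have hL : ∃ l ∈ Finset.Icc (p + G1) (p + G), ∃ l' ∈ Finset.Icc (p + G1) (p + G), l ≠ l' ∧ ¬ X l l' := by
      by_contra hc
      push Not at hc
      have h := H3 (Finset.Icc (p + G1) (p + G)) (fun i hi => by rw [Finset.mem_Icc] at hi; omega)
        (fun i hi j hj hij => hc i hi j hj hij)
      rw [Nat.card_Icc] at h
      omega
    obtain ⟨l, hl, l', hl', hne, hX⟩ := hL
    rw [Finset.mem_Icc] at hl hl'
    refine H2 l l' (by omega) (by omega) hne hX F fun i hi => ?_
    obtain ⟨h1, h2, h3⟩ := hF i hi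
    refine ⟨by omega, ?_, ?_⟩
    · by_contra hc
      exact h3 ⟨l, by omega, by omega, by omega, hc⟩
    · by_contra hc
      exact h3 ⟨l', by omega, by omega, by omega, hc⟩
  have next : ∀ i, good i → i + 2 * G + 1 < n → ∃ l, i < l ∧ l ≤ i + G2 ∧ l < n ∧ good l ∧ ¬ X i l := by
    intro i ⟨j, hj1, hj2, hj3, hj4⟩ hi
    let W := Finset.Ico (j + 1) (j + 1 + G1)
    have hW : W.card = G1 := by
      rw [Nat.card_Ico]
      omega
    have c1 : (W.filter fun l => X l i).card ≤ g0 := by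
      refine H2 i j (by omega) hj3 (by omega) hj4 _ fun l hl => ?_
      rw [Finset.mem_filter, Finset.mem_Ico] at hl
      have hln : l < n := by omega
      exact ⟨hln, hl.2, H1 i j l hj1 (by omega) hln hj4 hl.2⟩
    have c2 : (W.filter fun l => ¬ good l).card ≤ g0 := by
      refine bad (j + 1) (by omega) _ fun l hl => ?_
      rw [Finset.mem_filter, Finset.mem_Ico] at hl
      exact ⟨hl.1.1, hl.1.2, hl.2⟩
    have c3 : ((W.filter fun l => X l i) ∪ (W.filter fun l => ¬ good l)).card < W.card := by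
      have := Finset.card_union_le (W.filter fun l => X l i) (W.filter fun l => ¬ good l)
      omega
    obtain ⟨l, hlW, hl⟩ := Finset.exists_mem_notMem_of_card_lt_card c3
    rw [Finset.mem_union, Finset.mem_filter, Finset.mem_filter] at hl
    push Not at hl
    have hl1 := hl.1 hlW
    have hl2 := hl.2 hlW
    rw [Finset.mem_Ico] at hlW
    exact ⟨l, by omega, by omega, by omega, hl2, fun h => hl1 (symm _ _ h)⟩
  -- construction of the chain from a good index
  have chain : ∀ m i, n ≤ i + m → i < n → good i → ∃ (T : ℕ) (u : ℕ → ℕ), u 0 = i ∧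
      (∀ s < T, u s < u (s + 1) ∧ u (s + 1) ≤ u s + G2 ∧ u (s + 1) < n ∧ ¬ X (u s) (u (s + 1))) ∧
      u T < n ∧ n ≤ u T + G2 := by
    intro m
    induction m with
    | zero =>
      intro i h1 h2
      omega
    | succ m ih =>
      intro i h1 h2 hg
      by_cases hi : i + 2 * G + 1 < n
      · obtain ⟨l, hl1, hl2, hl3, hl4, hl5⟩ := next i hg hi
        obtain ⟨T, u, hu0, hu1, hu2, hu3⟩ := ih l (by omega) hl3 hl4
        refine ⟨T + 1, fun s => if s = 0 then i else u (s - 1), by simp, ?_, by simpa using hu2, by simpa using hu3⟩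
        intro s hs
        rcases Nat.eq_zero_or_pos s with rfl | hs0
        · simp only [if_true, Nat.zero_add, one_ne_zero, if_false, Nat.sub_self]
          rw [hu0]
          exact ⟨hl1, hl2, hl3, hl5⟩
        · obtain ⟨t, rfl⟩ : ∃ t, s = t + 1 := ⟨s - 1, by omega⟩
          simp only [Nat.succ_ne_zero, if_false, Nat.add_sub_cancel]
          exact hu1 t (by omega)
      · exact ⟨0, fun _ => i, rfl, fun s hs => absurd hs (Nat.not_lt_zero s), h2, by show n ≤ i + G2; omega⟩
  by_cases hnG : G < n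
  · -- a good index in the first window
    have hex : ∃ i, i < G1 ∧ good i := by
      by_contra hc
      push Not at hc
      have h := bad 0 (by omega) (Finset.range G1) fun i hi => by
        rw [Finset.mem_range] at hi
        exact ⟨by omega, by omega, hc i hi⟩
      rw [Finset.card_range] at h
      omega
    obtain ⟨i, hi1, hi2⟩ := hex
    obtain ⟨T, u, hu0, hu1, hu2, hu3⟩ := chain n i (by omega) (by omega) hi2
    refine ⟨T, u, by omega, fun s hs => ⟨(hu1 s hs).1, (hu1 s hs).2.1⟩, hu2, hu3, ?_⟩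
    intro s s' hss' hs'
    induction s' with
    | zero => omega
    | succ t ih =>
      have h1 := hu1 t (by omega)
      rcases Nat.lt_or_ge s t with hst | hst
      · have h2 := ih hst (by omega)
        refine ⟨by omega, h1.2.2.1, fun hX => ?_⟩
        exact h1.2.2.2 (symm _ _ (H1 (u s) (u t) (u (t + 1)) h2.1 h1.1 h1.2.2.1 h2.2.2 (symm _ _ hX)))
      · have : s = t := by omega
        rw [this]
        exact ⟨h1.1, h1.2.2.1, h1.2.2.2⟩
  · exact ⟨0, fun _ => 0, Nat.zero_le _, fun s hs => absurd hs (Nat.not_lt_zero s), hn, by omega, fun s s' h1 h2 => by omega⟩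

theorem D2 (hD1 : D1_stmt) (hA15 : A15_stmt) : D2_stmt := by
  classical
  intro B W _ M cs g0 D h0 hD
  refine ⟨2 * (2 * g0 + 1 + D + 1) + (2 * g0 + 1) + 1, fun n x w hn hG => ?_⟩
  obtain ⟨-, -, hinj, -, -⟩ := hA15 cs n x w hG
  have hsym : ∀ a b : Wall cs, (cw cs).Cross a b → (cw cs).Cross b a := by
    intro a b h c d
    rw [Set.inter_comm]
    exact h d c
  have himg : ∀ F : Finset ℕ, (∀ l ∈ F, l < n) → (F.image w).card = F.card := by
    intro F hF
    exact Finset.card_image_of_injOn fun a ha b hb hab => hinj a b (hF a ha) (hF b hb) hab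
  obtain ⟨T, u, h1, h2, h3, h4, h5⟩ := D2_core g0 D n (fun i j => (cw cs).Cross (w i) (w j)) (fun i j => hsym _ _)
    (fun i j l hij hjl hl hX hl' => hD1 cs n x w hG i j l hij hjl hl
      ⟨fun h => by have := hinj i j (by omega) (by omega) h; omega, hX⟩ hl')
    (fun i j hi hj hij hX F hF => by
      rw [← himg F fun l hl => (hF l hl).1]
      refine h0 (w i) (w j) ⟨fun h => hij (hinj i j hi hj h), hX⟩ _ fun v hv => ?_
      obtain ⟨l, hl, rfl⟩ := Finset.mem_image.mp hv
      exact (hF l hl).2)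
    (fun F hF hX => by
      rw [← himg F hF]
      refine hD _ fun v hv v' hv' hne => ?_
      obtain ⟨l, hl, rfl⟩ := Finset.mem_image.mp hv
      obtain ⟨l', hl', rfl⟩ := Finset.mem_image.mp hv'
      exact hX l hl l' hl' fun h => hne (by rw [h]))
    _ _ _ rfl rfl rfl hn
  refine ⟨T, u, h1, h2, h3, h4, fun s s' hs hs' => ?_⟩
  obtain ⟨h6, h7, h8⟩ := h5 s s' hs hs'
  exact ⟨fun h => by have := hinj _ _ (by omega) h7 h; omega, h8⟩

end Pool.Agent.helper53.DC
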