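import Pool.Agent.helper53.DC.SpecV

set_option autoImplicit false

namespace Pool.Agent.helper53.DC

section
variable {B W : Type} [Group W] {M : CoxeterMatrix B} (cs : CoxeterSystem M W)

theorem V6_cross_ne {r r' : Wall cs} (h : (cw cs).Cross r r') : r ≠ r' := by
  rintro rfl
  obtain ⟨x, h1, h2⟩ := h true false
  have h3 : x ∈ (cw cs).H r ↔ true = true := h1
  have h4 : x ∈ (cw cs).H r ↔ false = true := h2
  have h5 : x ∈ (cw cs).H r := h3.mpr rfl
  exact absurd (h4.mp h5) (by simp)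

theorem V6_vis (hA4 : A4_stmt) (g : W) {R : ℕ} {r r' : Wall cs} (h : Vis cs R r r') : Vis cs R (g • r) (g • r') := by
  obtain ⟨x, y, h1, h2, h3⟩ := h
  exact ⟨g * x, g * y, by rw [dd_left]; exact h1, (hA4 cs g r x y).mpr h2, (hA4 cs g r' x y).mpr h3⟩

theorem V6_dist_le {H : Subgroup W} {w w' : Wall cs} {h : W} (hh : h ∈ H) {u u' : Wall cs}
    (ha : (TG cs H w w').Reachable u u') :
    (TG cs H w w').dist (h • u) (h • u') ≤ (TG cs H w w').dist u u' := by
  obtain ⟨p, hp⟩ := ha.exists_walk_length_eq_dist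
  rw [← hp]
  let φ : (TG cs H w w') →g (TG cs H w w') := ⟨fun v => h • v, fun hab => TG_adj_smul cs hh hab⟩
  have h1 := SimpleGraph.dist_le (p.map φ)
  rw [SimpleGraph.Walk.length_map] at h1
  exact h1

theorem V6_dist {H : Subgroup W} {w w' : Wall cs} {h : W} (hh : h ∈ H) {u u' : Wall cs}
    (ha : (TG cs H w w').Reachable u u') :
    (TG cs H w w').dist (h • u) (h • u') = (TG cs H w w').dist u u' := by
  refine le_antisymm (V6_dist_le cs hh ha) ?_
  have h1 := V6_dist_le cs (H.inv_mem hh) (TG_reach_smul cs hh ha)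
  rw [inv_smul_smul, inv_smul_smul] at h1
  exact h1

/-- the vertices of the component are in the two orbits -/
theorem V6_T0 {H : Subgroup W} {w w' : Wall cs} {u : Wall cs} (hu : u ∈ T0 cs H w w') :
    ∃ h ∈ H, h • w = u ∨ h • w' = u := by
  obtain ⟨p⟩ := (hu : (TG cs H w w').Reachable w u)
  have key : ∀ {a b : Wall cs} (q : (TG cs H w w').Walk a b), (∃ h ∈ H, h • w = a ∨ h • w' = a) →
      ∃ h ∈ H, h • w = b ∨ h • w' = b := by
    intro a b q
    induction q with
    | nil => exact id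
    | cons hab q ih =>
      intro _
      apply ih
      obtain ⟨-, h, hh, h1⟩ := hab
      exact ⟨h, hh, h1.elim (fun k => Or.inr k.2) (fun k => Or.inl k.2)⟩
  exact key p ⟨1, H.one_mem, Or.inl (one_smul _ _)⟩

theorem V6_stab {H : Subgroup W} {w w' : Wall cs} {h : W} (hh : h ∈ H) {u : Wall cs} (hu : u ∈ T0 cs H w w') :
    h • u ∈ T0 cs H w w' ↔ h ∈ KK cs H w w' := by
  have h1 : (TG cs H w w').Reachable (h • w) (h • u) := TG_reach_smul cs hh hu
  constructor
  · intro h2
    exact ⟨hh, SimpleGraph.Reachable.trans h2 h1.symm⟩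
  · intro h2
    exact SimpleGraph.Reachable.trans h2.2 h1

theorem V6 (hV6a : V6a_stmt) (hV6d : V6d_stmt) (hV3 : V3_stmt) (hV4 : V4_stmt) (hV4b : V4b_stmt) (hV5 : V5_stmt)
    (hA4 : A4_stmt) : V6_stmt := by
  classical
  intro B W _ _ M cs H m g0 w w' hD hc hG0 hm hS lam hl0 hl1 R _
  have hKH : KK cs H w w' ≤ H := fun x hx => hx.1
  obtain ⟨A, hA1, hA2, f, hf1, hf2⟩ := hV6d cs H m g0 w w' hD hc hG0 hm lam hl0 hl1 R
  obtain ⟨Fw, hFw, hFw'⟩ := hV6a cs H hD.fin R w
  obtain ⟨Gw, hGw, hGw'⟩ := hV6a cs H hD.fin R w'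
  -- choice of elements
  have hch : ∀ v : Wall cs, ∀ u : Wall cs, ∃ h : W, (∃ h ∈ H, h • v = u) → h ∈ H ∧ h • v = u := by
    intro v u
    by_cases hx : ∃ h ∈ H, h • v = u
    · obtain ⟨h, h1, h2⟩ := hx
      exact ⟨h, fun _ => ⟨h1, h2⟩⟩
    · exact ⟨1, fun h => absurd h hx⟩
  choose cc hcc using hch
  let F0 : Set W := cc w '' (Fw ∪ Gw) ∪ cc w' '' (Fw ∪ Gw)
  have hF0 : F0.Finite := ((hFw.union hGw).image _).union ((hFw.union hGw).image _)
  obtain ⟨H', hK, hAct, hfi, hH'H, hcompat, hF0'⟩ := hV3 H (KK cs H w w') hKH hS A F0 hF0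
  have hne : w ≠ w' := V6_cross_ne cs hc
  have hwT : w ∈ T0 cs H w w' := SimpleGraph.Reachable.refl _
  have hw'T : w' ∈ T0 cs H w w' := by
    refine SimpleGraph.Adj.reachable (G := TG cs H w w') ⟨hne, 1, H.one_mem, Or.inl ⟨one_smul _ _, one_smul _ _⟩⟩
  obtain ⟨F, hFe, hFT, hF0z⟩ := hV5 H' (KK cs H w w') (T0 cs H w w') A f hK
    (fun h hh u hu => V6_stab cs (hH'H hh) hu)
    (fun h hh u hu α => by
      have h1 := hf1 ⟨(h : W), hh⟩ u α hu
      have h2 := hcompat ⟨(h : W), hh⟩ α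
      have h3 : (⟨(h : W), hK hh⟩ : H') = h := rfl
      rw [h3] at h2
      rw [← h2] at h1
      exact h1)
  let _ : Fintype (W ⧸ H') := H'.fintypeQuotientOfFiniteIndex
  obtain ⟨Z, hZ1, hZ2, β, hβ1, hβ2⟩ := hV4 H' A F hFe
  refine ⟨Z, hZ1, hZ2, β, hβ1, fun r r' hvis => ?_⟩
  rw [hβ2]
  refine hV4b H H' (fun g => ∑ α, F (g⁻¹ • r) α * F (g⁻¹ • r') α)
    (fun g => kT cs H w w' lam (g⁻¹ • r) (g⁻¹ • r')) hH'H ?_ ?_
  · intro g h hh
    show ∑ α, F ((g * h)⁻¹ • r) α * F ((g * h)⁻¹ • r') α = ∑ α, F (g⁻¹ • r) α * F (g⁻¹ • r') α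
    have e1 : ∀ v : Wall cs, ∀ α, F ((g * h)⁻¹ • v) α = F (g⁻¹ • v) ((⟨h, hh⟩ : H') • α) := by
      intro v α
      have h1 := hFe (⟨h, hh⟩ : H')⁻¹ (g⁻¹ • v) ((⟨h, hh⟩ : H') • α)
      rw [inv_smul_smul] at h1
      rw [← h1, mul_inv_rev, mul_smul]
      rfl
    simp only [e1]
    exact Equiv.sum_comp (MulAction.toPerm (⟨h, hh⟩ : H')) (fun α => F (g⁻¹ • r) α * F (g⁻¹ • r') α)
  · intro g
    have hv : Vis cs R (g⁻¹ • r) (g⁻¹ • r') := V6_vis cs hA4 g⁻¹ hvis
    generalize hu : g⁻¹ • r = u at hv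
    generalize hu' : g⁻¹ • r' = u' at hv
    have hΦ : ∀ h : W, (∑ α, F ((g * h)⁻¹ • r) α * F ((g * h)⁻¹ • r') α) = ∑ α, F (h⁻¹ • u) α * F (h⁻¹ • u') α := by
      intro h
      rw [mul_inv_rev, mul_smul, mul_smul, hu, hu']
    simp only [hΦ]
    by_cases hor : ∃ h ∈ H, h • w = u ∨ h • w' = u
    · -- `u = h0 • u0`
      have hor' : ∃ h0 ∈ H, ∃ u0 : Wall cs, (u0 = w ∨ u0 = w') ∧ u = h0 • u0 := by
        obtain ⟨h, hh, h1⟩ := hor
        rcases h1 with h1 | h1
        · exact ⟨h, hh, w, Or.inl rfl, h1.symm⟩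
        · exact ⟨h, hh, w', Or.inr rfl, h1.symm⟩
      obtain ⟨h0, hh0, u0, hu0, rfl⟩ := hor'
      have hu0T : u0 ∈ T0 cs H w w' := by
        rcases hu0 with rfl | rfl
        · exact hwT
        · exact hw'T
      have hv0 : Vis cs R u0 (h0⁻¹ • u') := by
        have h1 := V6_vis cs hA4 h0⁻¹ hv
        rw [inv_smul_smul] at h1
        exact h1
      refine ⟨h0, hh0, ?_, ?_⟩
      · rw [inv_smul_smul]
        by_cases hr : (TG cs H w w').Reachable (h0 • u0) u'
        · have hr' : (TG cs H w w').Reachable u0 (h0⁻¹ • u') := by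
            have h1 := TG_reach_smul cs (H.inv_mem hh0) hr
            rw [inv_smul_smul] at h1
            exact h1
          have hT' : h0⁻¹ • u' ∈ T0 cs H w w' := SimpleGraph.Reachable.trans hu0T hr'
          rw [hFT _ hu0T, hFT _ hT', hf2 _ _ hu0T hT' hv0]
          unfold kT
          rw [if_pos ⟨hor, hr⟩]
          congr 1
          have h2 := V6_dist cs hh0 hr'
          rw [smul_inv_smul] at h2
          exact h2.symm
        · unfold kT
          rw [if_neg (fun h => hr h.2)]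
          apply Finset.sum_eq_zero
          intro α _
          rw [hF0z (h0⁻¹ • u')]
          · exact mul_zero _
          · intro h' hh' hcon
            have hvH : ∃ h ∈ H, h • w = h0⁻¹ • u' ∨ h • w' = h0⁻¹ • u' := by
              obtain ⟨h1, hh1, h2⟩ := V6_T0 cs hcon
              refine ⟨h'⁻¹ * h1, H.mul_mem (H.inv_mem (hH'H hh')) hh1, ?_⟩
              rcases h2 with h2 | h2
              · left
                rw [mul_smul, h2, inv_smul_smul]
              · right
                rw [mul_smul, h2, inv_smul_smul]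
            -- a small representative
            have hrep : ∃ s ∈ H, s • u0 = u0 ∧ ∃ u'' ∈ Fw ∪ Gw, h0⁻¹ • u' = s • u'' := by
              rcases hu0 with rfl | rfl
              · obtain ⟨s, h1, h2, u'', h3, h4⟩ := hFw' _ hv0
                exact ⟨s, h1, h2, u'', Or.inl h3, h4⟩
              · obtain ⟨s, h1, h2, u'', h3, h4⟩ := hGw' _ hv0
                exact ⟨s, h1, h2, u'', Or.inr h3, h4⟩
            obtain ⟨s, hs, hsu, u'', hu'', hsv⟩ := hrep
            have hex : ∃ h1 ∈ F0, h1 ∈ H ∧ ∃ wb : Wall cs, wb ∈ T0 cs H w w' ∧ u'' = h1 • wb := by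
              obtain ⟨h1, hh1, h2⟩ := hvH
              have h3 : u'' = s⁻¹ • (h0⁻¹ • u') := by rw [hsv, inv_smul_smul]
              rcases h2 with h2 | h2
              · have h4 : ∃ h ∈ H, h • w = u'' := ⟨s⁻¹ * h1, H.mul_mem (H.inv_mem hs) hh1, by rw [mul_smul, h2, h3]⟩
                obtain ⟨h5, h6⟩ := hcc w u'' h4
                exact ⟨cc w u'', Or.inl ⟨u'', hu'', rfl⟩, h5, w, hwT, h6.symm⟩
              · have h4 : ∃ h ∈ H, h • w' = u'' := ⟨s⁻¹ * h1, H.mul_mem (H.inv_mem hs) hh1, by rw [mul_smul, h2, h3]⟩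
                obtain ⟨h5, h6⟩ := hcc w' u'' h4
                exact ⟨cc w' u'', Or.inr ⟨u'', hu'', rfl⟩, h5, w', hw'T, h6.symm⟩
            obtain ⟨h1, hh1F, hh1, wb, hwb, rfl⟩ := hex
            have hsK : s ∈ KK cs H w w' := (V6_stab cs hs hu0T).mp (by rw [hsu]; exact hu0T)
            have hprod : h' * s * h1 ∈ KK cs H w w' := by
              refine (V6_stab cs (H.mul_mem (H.mul_mem (hH'H hh') hs) hh1) hwb).mp ?_
              rw [mul_smul, mul_smul, ← hsv]
              exact hcon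
            have hh1H' : h1 ∈ H' := by
              have h2 : h1 = s⁻¹ * h'⁻¹ * (h' * s * h1) := by group
              rw [h2]
              exact H'.mul_mem (H'.mul_mem (H'.inv_mem (hK hsK)) (H'.inv_mem hh')) (hK hprod)
            have hh1K := hF0' h1 hh1F hh1H'
            have hh'K : h' ∈ KK cs H w w' := by
              have h2 : h' = (h' * s * h1) * h1⁻¹ * s⁻¹ := by group
              rw [h2]
              exact (KK cs H w w').mul_mem ((KK cs H w w').mul_mem hprod ((KK cs H w w').inv_mem hh1K))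
                ((KK cs H w w').inv_mem hsK)
            have hvT : h0⁻¹ • u' ∈ T0 cs H w w' := by
              have h2 := (V6_stab cs (H.inv_mem (hH'H hh')) hcon).mpr ((KK cs H w w').inv_mem hh'K)
              rw [inv_smul_smul] at h2
              exact h2
            apply hr
            have h2 : (TG cs H w w').Reachable u0 (h0⁻¹ • u') := SimpleGraph.Reachable.trans (SimpleGraph.Reachable.symm hu0T) hvT
            have h3 := TG_reach_smul cs hh0 h2
            rw [smul_inv_smul] at h3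
            exact h3
      · intro h1 hh1 hnot
        apply Finset.sum_eq_zero
        intro α _
        rw [hF0z (h1⁻¹ • h0 • u0)]
        · exact zero_mul _
        · intro h' hh' hcon
          apply hnot
          rw [← mul_smul, ← mul_smul, mul_assoc] at hcon
          have h2 : h' * (h1⁻¹ * h0) ∈ KK cs H w w' :=
            (V6_stab cs (H.mul_mem (hH'H hh') (H.mul_mem (H.inv_mem hh1) hh0)) hu0T).mp hcon
          have h3 : h0⁻¹ * h1 = (h'⁻¹ * (h' * (h1⁻¹ * h0)))⁻¹ := by group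
          rw [h3]
          exact H'.inv_mem (H'.mul_mem (H'.inv_mem hh') (hK h2))
    · -- `u` is not in the two orbits
      have hz : ∀ h1 ∈ H, ∑ α, F (h1⁻¹ • u) α * F (h1⁻¹ • u') α = 0 := by
        intro h1 hh1
        apply Finset.sum_eq_zero
        intro α _
        rw [hF0z (h1⁻¹ • u)]
        · exact zero_mul _
        · intro h' hh' hcon
          apply hor
          obtain ⟨h2, hh2, h3⟩ := V6_T0 cs hcon
          refine ⟨h1 * (h'⁻¹ * h2), H.mul_mem hh1 (H.mul_mem (H.inv_mem (hH'H hh')) hh2), ?_⟩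
          rcases h3 with h3 | h3
          · left
            rw [mul_smul, mul_smul, h3, inv_smul_smul, smul_inv_smul]
          · right
            rw [mul_smul, mul_smul, h3, inv_smul_smul, smul_inv_smul]
      refine ⟨1, H.one_mem, ?_, fun h1 hh1 _ => hz h1 hh1⟩
      rw [hz 1 H.one_mem]
      unfold kT
      rw [if_neg (fun h => hor h.1)]

end

end Pool.Agent.helper53.DC
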