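import Pool.Agent.helper58.DC.Spec1

set_option autoImplicit false

namespace Pool.Agent.helper31.DC

open Pool.Agent.helper58.DC

theorem TI (hIRT : IRT_stmt) : TI_stmt := by
  intro G _ χ
  constructor
  · rintro ⟨-, h⟩
    exact hIRT G (⊤ : Subgroup G) Subgroup.topEquiv.symm _ h
  · intro h
    refine ⟨fun g hg => absurd (Subgroup.mem_top g) hg, ?_⟩
    exact hIRT (⊤ : Subgroup G) G Subgroup.topEquiv _ h

end Pool.Agent.helper31.DC
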